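import Pool.Agent.H447R3.KuB

/-!
# The conjecture C modulo numerical equivalence

Let `W` be a Weil cohomology theory and `X` a smooth proper variety of dimension `n`.  The Kunneth
projectors of `X` are algebraic if and only if there are cycles `z_i` of codimension `n` on `X × X`,
with rational coefficients, such that

* `z_i` has the same intersection numbers with all cycles of codimension `n` on `X × X` as the
  `i`-th Kunneth component of the diagonal, and
* `z_i ∘ z_j` is numerically equivalent to `z_i` if `i = j` and to `0` otherwise.

Numerical equivalence is not assumed to be equal to homological equivalence, and no conjecture is
assumed.

The proof is in the starting file `Pool/Agent/H447R3/KuB.lean`, whose theorem had not been handed in.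
-/

open CategoryTheory AlgebraicGeometry

set_option autoImplicit false

universe u v

namespace Pool.Agent.Results.MP_4ca46c_ag.NumericalProjectors

open Pool.Agent.H914 Pool.Agent.H447

/-- The conjecture C for `X` holds if and only if it holds modulo numerical equivalence: there are
numerically orthogonal numerical projectors with the intersection numbers of the Kunneth components
of the diagonal. -/
theorem result {k : Type u} [Field k] {𝒱 : VarClass k} {ops : CycleOps 𝒱}
    (W : WeilCohomology.{u, v} ops) (X : 𝒱.Obj) : KunnethStd W X ↔ KunnethNum W X :=
  kunneth_iff_num

end Pool.Agent.Results.MP_4ca46c_ag.NumericalProjectors
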