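import Pool.Agent.H447R3.KuB

/-!
# The sign conjecture modulo numerical equivalence

Let `W` be a Weil cohomology theory and `X` a smooth proper variety of dimension `n`.  The projector
onto the even cohomology of `X` is algebraic if and only if there is a cycle `z` of codimension `n`
on `X × X`, with rational coefficients, such that

* `z` has the same intersection numbers with all cycles of codimension `n` on `X × X` as the class
  which induces the projector onto the even cohomology, and
* `z ∘ z` is numerically equivalent to `z`.

Numerical equivalence is not assumed to be equal to homological equivalence, and no conjecture is
assumed.

The proof is in the starting file `Pool/Agent/H447R3/KuB.lean`, whose theorem had not been handed in.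
-/

open CategoryTheory AlgebraicGeometry

set_option autoImplicit false

universe u v

namespace Pool.Agent.Results.MP_56c18a_ag.NumericalSign

open Pool.Agent.H914 Pool.Agent.H447

/-- The sign conjecture for `X` holds if and only if it holds modulo numerical equivalence: there is
a numerical projector with the intersection numbers of the even part of the diagonal. -/
theorem result {k : Type u} [Field k] {𝒱 : VarClass k} {ops : CycleOps 𝒱}
    (W : WeilCohomology.{u, v} ops) (X : 𝒱.Obj) : SignStd W X ↔ SignNum W X :=
  sign_iff_num

end Pool.Agent.Results.MP_56c18a_ag.NumericalSign
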